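import Pool.Agent.Lib_MP_db34dc_nt.Main

/-!
# Erdős' question on `x₁ ⋯ xₙ = n (x₁ + ⋯ + xₙ)`: almost all primes have at most `p^ε` solutions
-/

set_option autoImplicit false

namespace Pool.Agent.Results.MP_db34dc_nt.AlmostAllPrimes

open Pool.Agent.MP_db34dc_nt

/-- The solutions of `x₁ x₂ ⋯ xₙ = n (x₁ + x₂ + ⋯ + xₙ)` in positive integers, up to order: the
multisets of `n` positive integers whose product is `n` times their sum. -/
def Solutions (n : ℕ) : Set (Multiset ℕ) :=
  {M | Multiset.card M = n ∧ (∀ x ∈ M, 0 < x) ∧ M.prod = n * M.sum}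

/-- `f(n)`: the number of solutions up to order. -/
noncomputable def f (n : ℕ) : ℕ := (Solutions n).ncard

private theorem mset_bij (n : ℕ) :
    Set.BijOn (fun x : Fin n → ℕ => mset x) (Sol n) (Solutions n) := by
  refine ⟨?_, ?_, ?_⟩
  · rintro x ⟨-, hpos, heq⟩
    refine ⟨by simp [mset], ?_, ?_⟩
    · intro y hy
      obtain ⟨i, rfl⟩ := (mem_mset x y).1 hy
      exact hpos i
    · exact heq
  · intro x hx y hy h
    exact monotone_ext hx.1 hy.1 h
  · rintro M ⟨hc, hpos, heq⟩
    subst hc
    have hlen : (M.sort (· ≤ ·)).length = Multiset.card M := Multiset.length_sort ..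
    have hM : mset (fun i : Fin (Multiset.card M) => (M.sort (· ≤ ·)).get (i.cast hlen.symm)) = M := by
      unfold mset
      have e : (Finset.univ.val.map
          (fun i : Fin (Multiset.card M) => (M.sort (· ≤ ·)).get (i.cast hlen.symm)) : Multiset ℕ) =
          ((M.sort (· ≤ ·) : List ℕ) : Multiset ℕ) := by
        have e1 : ∀ (L : List ℕ) (k : ℕ) (h : L.length = k),
            (Finset.univ.val.map (fun i : Fin k => L.get (i.cast h.symm)) : Multiset ℕ) =
              (L : Multiset ℕ) := by
          intro L k h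
          subst h
          have e2 : (Finset.univ.val.map (fun i : Fin L.length => L.get i) : Multiset ℕ) =
              ((List.ofFn L.get : List ℕ) : Multiset ℕ) := by
            rw [List.ofFn_eq_map]
            rfl
          rw [List.ofFn_get] at e2
          exact e2
        exact e1 _ _ hlen
      rw [e, Multiset.sort_eq]
    refine ⟨fun i => (M.sort (· ≤ ·)).get (i.cast hlen.symm), ⟨?_, ?_, ?_⟩, hM⟩
    · intro i j hij
      have h1 : (M.sort (· ≤ ·)).SortedLE := (Multiset.pairwise_sort ..).sortedLE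
      exact h1.monotone_get hij
    · intro i
      exact hpos _ ((Multiset.mem_sort ..).1 (List.get_mem _ _))
    · have h1 := congrArg Multiset.prod hM
      have h2 := congrArg Multiset.sum hM
      have h3 : (∏ i : Fin (Multiset.card M), (M.sort (· ≤ ·)).get (i.cast hlen.symm)) = M.prod := h1
      have h4 : (∑ i : Fin (Multiset.card M), (M.sort (· ≤ ·)).get (i.cast hlen.symm)) = M.sum := h2
      rw [h3, h4]
      exact heq

private theorem f_eq (n : ℕ) : f n = (Sol n).ncard := by
  have h := mset_bij n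
  unfold f
  rw [← h.image_eq, h.injOn.ncard_image]

private theorem prod_pos' {M : Multiset ℕ} (h : ∀ x ∈ M, 0 < x) : 0 < M.prod := by
  apply Nat.pos_of_ne_zero
  intro h0
  exact absurd (h 0 (Multiset.prod_eq_zero_iff.1 h0)) (lt_irrefl 0)

private theorem finite_sol (n : ℕ) (hn : 2 ≤ n) : (Solutions n).Finite := by
  have key : ∀ M ∈ Solutions n, ∀ x ∈ M, x ≤ n ^ 4 := by
    rintro M ⟨hc, hpos, heq⟩
    obtain ⟨z, hz, hmax⟩ : ∃ z ∈ M, ∀ y ∈ M, y ≤ z := by
      have hne : M ≠ 0 := by
        intro h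
        rw [h, Multiset.card_zero] at hc
        omega
      obtain ⟨z, hz⟩ := Multiset.exists_mem_of_ne_zero hne
      have : M.toFinset.Nonempty := ⟨z, Multiset.mem_toFinset.2 hz⟩
      exact ⟨M.toFinset.max' this, Multiset.mem_toFinset.1 (Finset.max'_mem _ _),
        fun y hy => Finset.le_max' _ _ (Multiset.mem_toFinset.2 hy)⟩
    obtain ⟨A, rfl⟩ := Multiset.exists_cons_of_mem hz
    rw [Multiset.card_cons] at hc
    rw [Multiset.prod_cons, Multiset.sum_cons] at heq
    have hzpos := hpos z (Multiset.mem_cons_self _ _)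
    have hApos : ∀ x ∈ A, 0 < x := fun x hx => hpos x (Multiset.mem_cons_of_mem hx)
    have hAz : ∀ x ∈ A, x ≤ z := fun x hx => hmax x (Multiset.mem_cons_of_mem hx)
    have hP := prod_pos' hApos
    have hS : A.sum ≤ Multiset.card A * z := sum_le_card_mul hAz
    have hP2 : A.prod ≤ n ^ 2 := by
      have h1 : z * A.prod ≤ z * n ^ 2 := by
        rw [heq]
        calc n * (z + A.sum) ≤ n * (z + Multiset.card A * z) := by gcongr
          _ = z * (n * (Multiset.card A + 1)) := by ring
          _ = z * n ^ 2 := by rw [hc]; ring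
      exact Nat.le_of_mul_le_mul_left h1 hzpos
    have hAle : ∀ x ∈ A, x ≤ n ^ 2 := by
      intro x hx
      obtain ⟨B, rfl⟩ := Multiset.exists_cons_of_mem hx
      have hB : 0 < B.prod := prod_pos' fun y hy => hApos y (Multiset.mem_cons_of_mem hy)
      rw [Multiset.prod_cons] at hP2
      nlinarith
    have hS2 : A.sum ≤ n ^ 3 := by
      calc A.sum ≤ Multiset.card A * n ^ 2 := sum_le_card_mul hAle
        _ ≤ n * n ^ 2 := by gcongr; omega
        _ = n ^ 3 := by ring
    have hSpos : 0 < A.sum := by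
      have h1 : A ≠ 0 := by
        intro h
        rw [h, Multiset.card_zero] at hc
        omega
      obtain ⟨y, hy⟩ := Multiset.exists_mem_of_ne_zero h1
      exact lt_of_lt_of_le (hApos y hy) (Multiset.single_le_sum (by simp) y hy)
    have hn0 : 0 < n := by omega
    have hlt : n < A.prod := by
      by_contra h
      push Not at h
      have h1 : z * A.prod ≤ z * n := Nat.mul_le_mul_left z h
      have h2 : 0 < n * A.sum := Nat.mul_pos hn0 hSpos
      have h3 : n * (z + A.sum) = z * n + n * A.sum := by ring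
      omega
    have hzle : z ≤ n ^ 4 := by
      have h1 : z * (n + 1) ≤ z * A.prod := Nat.mul_le_mul_left z hlt
      have h2 : z * (n + 1) = n * z + z := by ring
      have h3 : n * (z + A.sum) = n * z + n * A.sum := by ring
      have h4 : n * A.sum ≤ n * n ^ 3 := Nat.mul_le_mul_left n hS2
      have h5 : n * n ^ 3 = n ^ 4 := by ring
      omega
    intro x hx
    exact le_trans (hmax x hx) hzle
  apply (Set.finite_Icc (0 : Multiset ℕ) (n • (Multiset.range (n ^ 4 + 1)))).subset
  intro M hM
  refine ⟨Multiset.zero_le _, ?_⟩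
  rw [Multiset.le_iff_count]
  intro x
  by_cases hx : x ∈ M
  · rw [Multiset.count_nsmul]
    have h1 : Multiset.count x (Multiset.range (n ^ 4 + 1)) = 1 :=
      Multiset.count_eq_one_of_mem (Multiset.nodup_range _)
        (Multiset.mem_range.2 (Nat.lt_succ_of_le (key M hM x hx)))
    rw [h1, mul_one, ← hM.1]
    exact Multiset.count_le_card _ _
  · rw [Multiset.count_eq_zero_of_notMem hx]
    exact Nat.zero_le _

/-- For every `ε > 0` the primes `p` for which it is not true that the equation has a finite number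
`f(p) ≤ p^ε` of solutions have a convergent sum of reciprocals, and there are infinitely many
primes `p` with a finite number `f(p) ≤ p^ε` of solutions. -/
theorem result (ε : ℝ) (hε : 0 < ε) :
    Summable (fun p : {p : ℕ // p.Prime ∧ ¬ ((Solutions p).Finite ∧ (f p : ℝ) ≤ (p : ℝ) ^ ε)} =>
      (1 : ℝ) / ((p : ℕ) : ℝ)) ∧
    {p : ℕ | p.Prime ∧ (Solutions p).Finite ∧ (f p : ℝ) ≤ (p : ℝ) ^ ε}.Infinite := by
  obtain ⟨K, hK⟩ := main_bound ε hε
  have hsum : Summable (fun p : {p : ℕ // p.Prime ∧
      ¬ ((Solutions p).Finite ∧ (f p : ℝ) ≤ (p : ℝ) ^ ε)} => (1 : ℝ) / ((p : ℕ) : ℝ)) := by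
    apply summable_of_sum_le (c := K)
    · intro p
      positivity
    · intro u
      have h1 : ∑ x ∈ u, (1 : ℝ) / ((x : ℕ) : ℝ) =
          ∑ p ∈ u.map (Function.Embedding.subtype _), (1 : ℝ) / (p : ℝ) := by
        rw [Finset.sum_map]
        rfl
      rw [h1]
      apply hK
      · intro p hp
        obtain ⟨x, _, rfl⟩ := Finset.mem_map.1 hp
        exact x.2.1
      · intro p hp
        obtain ⟨x, _, rfl⟩ := Finset.mem_map.1 hp
        obtain ⟨h2, h3⟩ := x.2
        have h4 := finite_sol x.1 h2.two_le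
        have h5 : ¬ ((f x.1 : ℝ) ≤ ((x.1 : ℕ) : ℝ) ^ ε) := fun h => h3 ⟨h4, h⟩
        rw [f_eq] at h5
        exact not_le.1 h5
  refine ⟨hsum, ?_⟩
  intro hfin
  apply not_summable_one_div_on_primes
  set B : Set ℕ := {p : ℕ | p.Prime ∧ ¬ ((Solutions p).Finite ∧ (f p : ℝ) ≤ (p : ℝ) ^ ε)} with hB
  set G : Set ℕ := {p : ℕ | p.Prime ∧ (Solutions p).Finite ∧ (f p : ℝ) ≤ (p : ℝ) ^ ε} with hG
  have hsum' : Summable (B.indicator (fun p : ℕ => (1 : ℝ) / (p : ℝ))) :=
    summable_subtype_iff_indicator.1 hsum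
  have hfin' : Summable (G.indicator (fun p : ℕ => (1 : ℝ) / (p : ℝ))) := by
    apply summable_of_hasFiniteSupport
    exact hfin.subset (by
      intro p hp
      by_contra h
      exact hp (Set.indicator_of_notMem h _))
  have h := hsum'.add hfin'
  have e : (fun p : ℕ => B.indicator (fun p : ℕ => (1 : ℝ) / (p : ℝ)) p +
      G.indicator (fun p : ℕ => (1 : ℝ) / (p : ℝ)) p) =
      Set.indicator {p : ℕ | p.Prime} (fun p : ℕ => (1 : ℝ) / (p : ℝ)) := by
    funext p
    by_cases hp : p.Prime
    · have hpP : p ∈ {p : ℕ | p.Prime} := hp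
      rw [Set.indicator_of_mem hpP]
      by_cases hq : (Solutions p).Finite ∧ (f p : ℝ) ≤ (p : ℝ) ^ ε
      · have h1 : p ∉ B := fun h => h.2 hq
        have h2 : p ∈ G := ⟨hp, hq⟩
        rw [Set.indicator_of_notMem h1, Set.indicator_of_mem h2, zero_add]
      · have h1 : p ∈ B := ⟨hp, hq⟩
        have h2 : p ∉ G := fun h => hq h.2
        rw [Set.indicator_of_mem h1, Set.indicator_of_notMem h2, add_zero]
    · have hpP : p ∉ {p : ℕ | p.Prime} := hp
      have h1 : p ∉ B := fun h => hp h.1
      have h2 : p ∉ G := fun h => hp h.1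
      rw [Set.indicator_of_notMem h1, Set.indicator_of_notMem h2,
        Set.indicator_of_notMem hpP, zero_add]
  rw [e] at h
  exact h

end Pool.Agent.Results.MP_db34dc_nt.AlmostAllPrimes
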